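import Pool.Agent.W670.ML.Defs2

set_option autoImplicit false

namespace Pool.Agent.W179.ML2

open NumberField
open Pool.Agent.W670.ML

theorem finrank_biSup_le (K Ω : Type) [Field K] [Field Ω] [Algebra K Ω] (n r : ℕ)
    (L : Fin r → IntermediateField K Ω) (hn : ∀ i, Module.finrank K (L i) = n)
    (s : Finset (Fin r)) : Module.finrank K ↥(⨆ i ∈ s, L i) ≤ n ^ s.card := by
  induction s using Finset.induction_on with
  | empty =>
    have h : (⨆ i ∈ (∅ : Finset (Fin r)), L i) = ⊥ := by simp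
    rw [h, IntermediateField.finrank_bot]
    simp
  | insert a s ha ih =>
    rw [Finset.iSup_insert, Finset.card_insert_of_notMem ha, pow_succ]
    refine (IntermediateField.finrank_sup_le _ _).trans ?_
    rw [hn a, mul_comm]
    exact Nat.mul_le_mul_right _ ih

theorem finrank_iSup_le (K Ω : Type) [Field K] [Field Ω] [Algebra K Ω] (n r : ℕ)
    (L : Fin r → IntermediateField K Ω) (hn : ∀ i, Module.finrank K (L i) = n) :
    Module.finrank K ↥(⨆ i, L i) ≤ n ^ r := by
  have h := finrank_biSup_le K Ω n r L hn Finset.univ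
  have e : (⨆ i ∈ (Finset.univ : Finset (Fin r)), L i) = ⨆ i, L i := by simp
  rw [e, Finset.card_univ, Fintype.card_fin] at h
  exact h

theorem ps (h1 : S_IC) (h2 : S_IM) (h3 : S_EXK) (h4 : S_DM) (h5 : S_DI) (h6 : S_MI) : S_PS := by
  intro K _ _ n m r G X L hn hr hT hm hX hL
  obtain ⟨-, hMI⟩ := h6 n G hn hT
  obtain ⟨hm1, hmn, hmi⟩ := hMI m hm
  have hac : IsAlgClosure ℚ (AlgebraicClosure K) :=
    IsAlgClosure.ofAlgebraic ℚ K (AlgebraicClosure K)
  have hfr : ∀ i, Module.finrank K (L i) = n := fun i => (hL i).1.1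
  have hfd : ∀ i, FiniteDimensional K (L i) := fun i =>
    Module.finite_of_finrank_pos (by rw [hfr i]; omega)
  obtain ⟨hNF, hle⟩ := h4 K (AlgebraicClosure K) n r X L (by omega) hX
    (fun i => ⟨hfr i, (hL i).2⟩)
  have hkpos : 0 < Module.finrank K ↥(⨆ i, L i) := Module.finrank_pos
  have hdvd : n ∣ Module.finrank K ↥(⨆ i, L i) := by
    have := IntermediateField.finrank_dvd_of_le_right
      (le_iSup L (⟨0, by omega⟩ : Fin r))
    rwa [hfr] at this
  obtain ⟨q, hq⟩ := hdvd
  have hqk : Module.finrank K ↥(⨆ i, L i) = q * n := by rw [hq, mul_comm]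
  have hq1 : 1 ≤ q := by
    rcases Nat.eq_zero_or_pos q with h0 | h0
    · rw [hqk, h0, zero_mul] at hkpos
      exact absurd hkpos (lt_irrefl _)
    · exact h0
  refine ⟨q, hq1, ?_, hqk, ⟨hNF, ?_⟩, ?_⟩
  · rw [← hqk]
    exact finrank_iSup_le K (AlgebraicClosure K) n r L hfr
  · rw [h5.1 K ↥(⨆ i, L i), hqk]
    push_cast
    rw [mul_comm]
    refine mul_le_mul_of_nonneg_left ?_ (by positivity)
    rw [hqk] at hle
    have e : X ^ (r * (q * n)) = (X ^ (r * q)) ^ n := by
      rw [← pow_mul, mul_assoc]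
    rw [e] at hle
    exact (pow_le_pow_iff_left₀ (by positivity) (by positivity) (by omega)).mp hle
  · intro N H hH
    obtain ⟨H', -, hG'⟩ := h3 K (AlgebraicClosure K) (Module.finrank K ↥(⨆ i, L i))
      (⨆ i, L i) hkpos rfl
    have hind : ∀ g ∈ H', g ≠ 1 → q * m ≤ ind g := by
      intro g hg hg1
      have := h2 K (AlgebraicClosure K) n (Module.finrank K ↥(⨆ i, L i)) m r G H' L (by omega)
        (fun i => (hL i).1) hmi hG' g hg hg1
      have h7 : n * (q * m) ≤ n * ind g := by
        calc n * (q * m) = Module.finrank K ↥(⨆ i, L i) * m := by rw [hqk]; ring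
          _ ≤ n * ind g := this
      exact Nat.le_of_mul_le_mul_left h7 (by omega)
    exact h1 K (AlgebraicClosure K) (Module.finrank K ↥(⨆ i, L i)) N (q * m) H' H
      (⨆ i, L i) hG' hH (by rw [hqk]; exact Nat.mul_le_mul_left q hmn) hind

end Pool.Agent.W179.ML2
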